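import Pool.Agent.J4.H92.HT.Final

/-!
# All highly twisted arborescent links have a nontrivial Jones polynomial

Library used: `Pool.Agent.H891R2.Jones.*` (diagrams, `D.fPoly`: the normalised bracket, that is, the Jones
polynomial with `t = A^{-4}`), `Pool.Agent.H891R2.MT.Defs` (`Orients D U`: `D` is the unoriented diagram `U`
with directions), `Pool.Agent.N569.AB` (`Tree`, `t.tangle`, `t.link`: the arborescent link of a weighted plane
tree `t`, `row a`: one vertex of weight `a`, `graft v c`: the root of `v` gets one more child, namely the root
of `c`; `t.wt`: the weight of the root; `t.kids`: the number of the children of the root).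

New definitions (`Pool.Agent.J4.H92.HT.Defs`):

* `num t`: the number of the vertices of `t` whose weight is not `0`, that is, the number of the twist regions
  of the diagram of the tree; `Twisted C t`: every weight `a ≠ 0` satisfies `|a| ≥ C` (every twist region has
  at least `C` crossings);
* `Reduced t`: no tangles are inserted (`t` is a weighted plane tree), and every vertex of weight `0` has at
  least three neighbours.  (If a vertex of weight `0` has at most two neighbours then the diagram is of a
  simpler tree, or it is a connected sum or a split union, or it is the diagram without crossings.);
* `coeffSum F`: the sum of the absolute values of the coefficients of `F`.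

Proof.  Let `A` be a point of the unit circle such that `δ = -A^2 - A^{-2}` is small.  Then `y = -A^{-4}` is
close to `1`.  The bracket of the tangle of a tree is `α` times two horizontal strands plus `β` times two
vertical ones.  With `ρ = δ β / α` one has `1 + ρ = y^a` for a row of `a` crossings and
`1 + ρ' = (1 + ρ_v) (1 + δ^2 / ρ_c)` for a graft.  If the powers `y^a` stay away from `1` (for large `a` there
are such points `A`, for an arbitrary number `n` of weights) then, by an induction over the tree, either
`|1 + ρ| ≤ 1 + ε` and `ρ` stays away from `0`, or the weight of the root is `0` and `u = ρ / δ^2` is bounded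
with `Re u ≤ - k / 2 + ε`, where `k` is the number of the children.  So nothing cancels, and the bracket has
the size of `1 / δ` at least.
-/

set_option autoImplicit false

namespace Pool.Agent.Results.MP_7bc610_gt.HighlyTwistedArborescent

open LaurentPolynomial Pool.Agent.H891R2.Jones Pool.Agent.H891R2.MT Pool.Agent.H891R2.RF
open Pool.Agent.N569.AB Pool.Agent.J4.H92.HT

/-- For all `n` and `K` there is `C` such that the following holds for all reduced weighted plane trees `t` with
at most `n` vertices of nonzero weight, all these weights being at least `C` in absolute value (with arbitrary
signs), and for all oriented diagrams `D` of the arborescent link of `t`: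

* the normalised bracket (Jones polynomial) of `D` has an absolute value larger than `K` at some point `A` of
  the unit circle, and the sum of the absolute values of its coefficients is larger than `K`;
* it is not, up to a unit `± A^m`, a power of `-A^2 - A^{-2}`; so it is different from the Jones polynomials of
  the unknot and of all unlinks. -/
theorem result (n : ℕ) (K : ℝ) : ∃ C : ℕ, ∀ t : Tree, Reduced t → num t ≤ n → Twisted C t →
    ∀ D : Diagram t.tangle.P, Orients D t.link →
      (∃ A : ℂˣ, ‖(A : ℂ)‖ = 1 ∧ K < ‖eval₂ (Int.castRingHom ℂ) A D.fPoly‖) ∧
      K < (coeffSum D.fPoly : ℝ) ∧
      ∀ (ε m : ℤ) (j : ℕ), ε = 1 ∨ ε = -1 → D.fPoly ≠ LaurentPolynomial.C ε * T m * (-T 2 - T (-2)) ^ j :=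
  final n K

end Pool.Agent.Results.MP_7bc610_gt.HighlyTwistedArborescent
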