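import Pool.Agent.J4.H15.RU.Lim
import Pool.Agent.J4.H15.RU.Std

/-!
# Jones polynomials of knots converge to one near the roots of unity

Diagrams (starting library `Pool.Agent.H891R2.Jones.Diagram`): `Diagram P` (oriented link diagrams,
planar or not), `Diagram.fPoly` (the normalised bracket `(-A^{-3})^{w(D)} ⟨D⟩ ∈ ℤ[A, A⁻¹]`, `A = T 1`,
i.e. the Jones polynomial `V(t)`, `t = A^{-4} = T (-4)`), `Diagram.IsClosed` (the pieces of the diagram
fit together to closed oriented curves), `Outer m` (an oriented diagram with an open box through which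
`m` strands run, each of them in one of the two directions).  Starting libraries
`Pool.Agent.W639.RB.Defs` and `Pool.Agent.Y463.SK.Defs`: `Letter m` (the letters `σ_i^{±1}` of the braid
group on `m` strands), `dia O w` (the diagram obtained by drawing the word `w` in the box of `O`),
`braidClosure m` (the outside of the box for the usual closure of braids), `permW w` (the permutation
of the strands), `IsPure w` (`permW w = 1`).
-/

set_option autoImplicit false

namespace Pool.Agent.Results.MP_7bc610_gt.JonesNearRootsOfUnity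

open LaurentPolynomial Pool.Agent.H891R2.Jones Pool.Agent.W639.RB Pool.Agent.Y463.SK

/-- the value at `A ∈ ℂ \ {0}` of a Laurent polynomial in `A = T 1` -/
noncomputable def val (A : ℂˣ) : ℤ[T;T⁻¹] →+* ℂ := LaurentPolynomial.eval₂ (Int.castRingHom ℂ) A

/-- the word `σ₁ σ₂ σ₃`; its closure is a diagram of the unknot -/
def delta : List (Letter 4) := [(true, 0), (true, 1), (true, 2)]

/-- For every `N ≥ 1` there are `r > 0` and pure braid words `W_0, W_1, …` on four strands such that:
inserting `W_j` in four parallel strands of any oriented diagram (classical or virtual, closed by any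
word `v` in the rest of the box) changes the Jones polynomial `V(t)` by a multiple of
`(t^N - 1)^{2^j}`, and by a function which tends to `0` uniformly on the neighbourhood
`|A^{4N} - 1| ≤ r`, i.e. `|t^{-N} - 1| ≤ r`, of the set of `N`-th roots of unity in `ℂ`; but the closures
of `W_j σ₁ σ₂ σ₃` are knots with Jones polynomial `≠ 1` (the closure of `σ₁ σ₂ σ₃` is the unknot). -/
theorem result (N : ℕ) (hN : 1 ≤ N) : ∃ r : ℝ, 0 < r ∧ ∃ W : ℕ → List (Letter 4), 
    (∀ j, IsPure (W j)) ∧ 
    (∀ (O : Outer 4) (v : List (Letter 4)), 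
      (∀ j, (T (4 * (N : ℤ)) - 1 : ℤ[T;T⁻¹]) ^ (2 ^ j) ∣ (dia O (W j ++ v)).fPoly - (dia O v).fPoly) ∧ 
      ∀ ε : ℝ, 0 < ε → ∃ j₀ : ℕ, ∀ j ≥ j₀, ∀ A : ℂˣ, ‖(A : ℂ) ^ (4 * N) - 1‖ ≤ r → 
        ‖val A (dia O (W j ++ v)).fPoly - val A (dia O v).fPoly‖ < ε) ∧ 
    (dia (braidClosure 4) delta).fPoly = 1 ∧ 
    ∀ j, (dia (braidClosure 4) (W j ++ delta)).IsClosed ∧ 
      (∀ a b : Fin 4, (permW (W j ++ delta)).SameCycle a b) ∧ 
      (dia (braidClosure 4) (W j ++ delta)).fPoly ≠ 1 := by
  obtain ⟨r, hr, W, hp, hins, hne⟩ := Pool.Agent.J4.H15.RU.main hN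
  refine ⟨r, hr, W, hp, fun O v => ⟨(hins O v).1, fun ε hε => ?_⟩, Pool.Agent.J4.H15.RU.fPoly_dl, 
    fun j => ⟨?_, Pool.Agent.J4.H15.RU.knot_dl (hp j), ?_⟩⟩
  · obtain ⟨j₀, hj₀⟩ := (hins O v).2 ε hε
    refine ⟨j₀, fun j hj A hA => ?_⟩
    rw [← map_sub]
    exact hj₀ j hj A hA
  · exact Pool.Agent.J4.H15.RU.dia_closed _ Pool.Agent.J4.H15.RU.closure_closed _ (fun _ => rfl)
  · have := hne j
    rw [Pool.Agent.J4.H15.RU.fPoly_dl] at this
    exact this

end Pool.Agent.Results.MP_7bc610_gt.JonesNearRootsOfUnity
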