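import Pool.Agent.J4.H92.NU.Final

/-!
# Jones polynomials of diagrams whose twist regions have almost the same numbers of crossings

Library used: `Pool.Agent.H891R2.Jones.*` (diagrams on surfaces, that is, virtual diagrams: the arcs only say
which marked points are joined; `D.fPoly`: the normalised bracket, all loops counting equally),
`Pool.Agent.H891R2.MT.Defs` (`Orients D U`: `D` is the unoriented diagram `U` with directions; `Ribbon k`: a
ribbon graph `Γ` with `k` edges on a closed oriented surface of any genus, given by the rotation system on its
`2 k` darts; `Γ.verts`, `Γ.comps S`: the numbers of vertices and of components of the spanning subgraph with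
edge set `S`; `Γ.link n`: the boundary of the surface made of one disc for every vertex and, for every edge
`e`, a band with `n e` half twists, that is, a row of `|n e|` crossings of the kind given by the sign of `n e`).

Every classical link diagram which is decomposed into `k` twist regions (rows of crossings) is of this form,
with the numbers of crossings as the absolute values of the `n e`: the discs are bounded by the circles of the
state in which all rows are cut; the ribbon graph need not be planar. (This remark is not part of the theorem.)

`Pool.Agent.J4.H92.HT.Final`: `coeffSum F`: the sum of the absolute values of the coefficients of `F`.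

Proof.  Let `A` be a point of the unit circle such that `δ = -A^2 - A^{-2}` is small, `y = -A^{-4}`.  The state
sum is, up to factors of absolute value `1`, `δ^{-k-1} ∑_S δ^{curves S + |S|} ∏_{e ∉ S} (y^{n e} - 1)`. The
lowest exponent `verts` belongs to the forests `S`, so that the leading coefficient is
`∑_{S forest} ∏_{e ∉ S} (y^{n e} - 1)`.  For `y = exp (i π / N)` it is close to its value at the point with
coordinates `1` (on `P`) and `-1` (outside `P`), which is not zero: for every matroid without coloops and all
`x_e ∈ [-1, 1]` the number `(-1)^nullity ∑_{S independent} ∏_{e ∉ S} (x_e - 1)` is nonnegative, and it is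
positive if all `x_e = -1` and no cocircuit has one or two elements (induction: two elements in series with the
values `x, x'` can be replaced by one element with the value `x x'`).
-/

set_option autoImplicit false

namespace Pool.Agent.Results.MP_7bc610_gt.NearlyEqualTwists

open LaurentPolynomial Pool.Agent.H891R2.Jones Pool.Agent.H891R2.MT Pool.Agent.J4.H92.HT

/-- For all `k` and `K` there is `C` such that the following holds.  Let `Γ` be a ribbon graph of arbitrary
genus with `k` edges, and let `P` be a set of edges (for instance `P = ∅`) which is a forest and such that the
graph remains connected if one or two edges outside `P` are removed; `P` does not contain all edges.  Let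
`N ≥ C` be a real number, and suppose that the number `n e` of half twists of the band `e` is equal to `N`
times an odd integer for `e ∉ P`, and to `N` times an even integer (for instance `0`) for `e ∈ P`, up to errors
of at most `N / C`.  Then for all oriented diagrams `D` of the link `Γ.link n`:

* the normalised bracket (Jones polynomial) of `D` has an absolute value larger than `K` at some point of the
  unit circle, and the sum of the absolute values of its coefficients is larger than `K`;
* it is not, up to a unit `± A^m`, a power of `-A^2 - A^{-2}`, so it is not the Jones polynomial of the unknot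
  or of an unlink. -/
theorem result (k : ℕ) (K : ℝ) : ∃ C : ℕ, 0 < C ∧ ∀ (Γ : Ribbon k) (P : Finset (Fin k)),
    P ≠ Finset.univ → Γ.comps P + P.card = Γ.verts →
    (∀ e f : Fin k, e ∉ P → f ∉ P → Γ.comps ({e, f} : Finset (Fin k))ᶜ = 1) →
    ∀ (n : Fin k → ℤ) (N : ℝ), (C : ℝ) ≤ N →
    (∀ e, ∃ m : ℤ, (Even m ↔ e ∈ P) ∧ |n e - m * N| ≤ N / C) →
    ∀ D : Diagram (Ribbon.Pt n), Orients D (Γ.link n) →
      (∃ A : ℂˣ, ‖(A : ℂ)‖ = 1 ∧ K < ‖eval₂ (Int.castRingHom ℂ) A D.fPoly‖) ∧
      K < (coeffSum D.fPoly : ℝ) ∧
      ∀ (ε m : ℤ) (j : ℕ), ε = 1 ∨ ε = -1 → D.fPoly ≠ LaurentPolynomial.C ε * T m * (-T 2 - T (-2)) ^ j :=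
  Pool.Agent.J4.H92.NU.final k K

end Pool.Agent.Results.MP_7bc610_gt.NearlyEqualTwists
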