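import Pool.Agent.J5.H37.AM.Detect2

/-!
# Finitely many knots decide whether a braid is invisible for the Kauffman bracket

Diagrams (starting library `Pool.Agent.H891R2.Jones.Diagram`): `Diagram P` (oriented link diagrams,
planar or not), `Diagram.bracket` (the Kauffman bracket `⟨D⟩ ∈ ℤ[A, A⁻¹]`, `A = T 1`), `Diagram.fPoly`
(the normalised bracket `(-A^{-3})^{w(D)} ⟨D⟩`, i.e. the Jones polynomial `V(t)` with
`t = A^{-4} = T (-4)`), `Outer m` (an oriented diagram with an open box through which `m` strands run,
each of them in one of the two directions `O.up j`).  Starting libraries `Pool.Agent.W639.RB.Defs` and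
`Pool.Agent.Y463.SK.Defs`: `Letter m` (the letters `σ^{±1}` of the braid group on `m` strands; `(s, j)`
is `σ_{j+1}`, with the exponent `1` if `s` is `true` and `-1` otherwise), `invW w` (the inverse word),
`braidClosure m` (the outside of the box for the usual closure of braids), `permW w` (the permutation of
the strands of the word `w`), `IsPure w` (it is the identity), `powW w k` (the word `w^k`, `k ∈ ℤ`),
`dia O w` (the diagram obtained by drawing `w` in the box of `O`).  `Pool.Agent.J5.H37.UJ.IsKnotW w`: the
permutation of `w` has a single cycle, i.e. the closure of the braid is a knot.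

`Pool.Agent.J5.H37.AM.testWords n` (definition in `Pool.Agent.J5.H37.AM.Fin`): the test words on `n + 1`
strands, i.e. the empty word for `n = 0`, and for `n + 1` all words `b⁻¹ w σ_{n+1}^{±1} b`, where `w` is
a test word on `n + 1` strands and `b = σ_n σ_{n-1} ⋯ σ_{n-k+1}`, `0 ≤ k ≤ n`.

Proof: by crossing changes the test words span the Temperley-Lieb algebra, up to powers of `1 - t`; the
words are combinations of perfect matchings (Brauer diagrams), the trace form has the entries `d^l`, `l`
the number of loops of two matchings, and the diagonal entries have the strictly largest exponent; the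
exponent sum is read off from a colouring with distinct neighbours; general moduli follow by linear
algebra over the field of fractions.  Four strands: an explicit basis and the explicit inverse of the
Gram matrix.
-/

set_option autoImplicit false

namespace Pool.Agent.Results.MP_7bc610_gt.UnknotTests

open LaurentPolynomial Pool.Agent.H891R2.Jones Pool.Agent.W639.RB Pool.Agent.Y463.SK
  Pool.Agent.J5.H37.UJ Pool.Agent.J5.H37.AM

/-- Fourteen words on four strands: `σ₁^{±1} σ₂^{±1} σ₃^{±1}` (all signs), `σ₃ σ₂ σ₁`, `σ₃⁻¹ σ₂ σ₁`,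
`σ₃ σ₂ σ₁⁻¹`, `σ₂ σ₃ σ₁`, `σ₃ σ₁ σ₂` and `σ₂⁻¹ σ₃ σ₁ σ₂ σ₂`. -/
def fourteen : List (List (Letter 4)) :=
  [[(true, 0), (true, 1), (true, 2)], [(true, 0), (true, 1), (false, 2)],
   [(true, 0), (false, 1), (true, 2)], [(true, 0), (false, 1), (false, 2)],
   [(false, 0), (true, 1), (true, 2)], [(false, 0), (true, 1), (false, 2)],
   [(false, 0), (false, 1), (true, 2)], [(false, 0), (false, 1), (false, 2)],
   [(true, 2), (true, 1), (true, 0)], [(false, 2), (true, 1), (true, 0)],
   [(true, 2), (true, 1), (false, 0)], [(true, 1), (true, 2), (true, 0)],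
   [(true, 2), (true, 0), (true, 1)],
   [(false, 1), (true, 2), (true, 0), (true, 1), (true, 1)]]

/-- The exponent sum of a word. -/
def expSum {m : ℕ} (x : List (Letter m)) : ℤ := (x.map (fun l => if l.1 then (1 : ℤ) else -1)).sum

/-- The closures of the words `x w`, `w ∈ W`, have Jones polynomial `1` modulo `h`. -/
def Passes {m : ℕ} (W : List (List (Letter m))) (h : ℤ[T;T⁻¹]) (x : List (Letter m)) : Prop :=
  ∀ w ∈ W, h ∣ (dia (braidClosure m) (x ++ w)).fPoly - 1

/-- `g` divides `κ` times the change of the Kauffman bracket of every oriented link diagram, classical or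
virtual, if `x` is inserted in `m` of its strands, of any directions. -/
def BracketChange {m : ℕ} (g κ : ℤ[T;T⁻¹]) (x : List (Letter m)) : Prop :=
  ∀ (O : Outer m) (v : List (Letter m)), g ∣ κ * ((dia O (x ++ v)).bracket - (dia O v).bracket)

/-- `g` divides the change of the Jones polynomial of every oriented link diagram, classical or virtual,
if `x` is inserted in `m` of its strands, of the same direction. -/
def JonesChange {m : ℕ} (g : ℤ[T;T⁻¹]) (x : List (Letter m)) : Prop :=
  ∀ (O : Outer m), (∀ i j, O.up i = O.up j) → ∀ v : List (Letter m),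
    g ∣ (dia O (x ++ v)).fPoly - (dia O v).fPoly

/-- `W` is a list of `k` words whose closures are knots with Jones polynomial `1`; so the closures of
`x w`, `x` pure and `w ∈ W`, are knots, too. -/
def KnotTests (m k : ℕ) (W : List (List (Letter m))) : Prop :=
  W.length = k ∧ ∀ w ∈ W, (dia (braidClosure m) w).fPoly = 1 ∧
    ∀ x : List (Letter m), IsPure x → (dia (braidClosure m) (x ++ w)).IsClosed ∧ IsKnotW (x ++ w)

theorem expSum_eq {m : ℕ} (x : List (Letter m)) : expSum x = expo (toN x) := by
  simp [expSum, expo, toN, List.map_map, Function.comp_def]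

theorem toN_fourteen {w : List (Letter 4)} (h : w ∈ fourteen) : toN w ∈ Pool.Agent.J5.H37.FD.tst := by
  simp only [fourteen, List.mem_cons, List.not_mem_nil, or_false] at h
  rcases h with rfl | rfl | rfl | rfl | rfl | rfl | rfl | rfl | rfl | rfl | rfl | rfl | rfl | rfl <;>
    decide

theorem fourteen_toN {w : List (Bool × ℕ)} (h : w ∈ Pool.Agent.J5.H37.FD.tst) :
    ∃ w' ∈ fourteen, toN w' = w := by
  simp only [Pool.Agent.J5.H37.FD.tst, List.mem_cons, List.not_mem_nil, or_false] at h
  rcases h with rfl | rfl | rfl | rfl | rfl | rfl | rfl | rfl | rfl | rfl | rfl | rfl | rfl | rfl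
  · exact ⟨[(true, 0), (true, 1), (true, 2)], by simp [fourteen], rfl⟩
  · exact ⟨[(true, 0), (true, 1), (false, 2)], by simp [fourteen], rfl⟩
  · exact ⟨[(true, 0), (false, 1), (true, 2)], by simp [fourteen], rfl⟩
  · exact ⟨[(true, 0), (false, 1), (false, 2)], by simp [fourteen], rfl⟩
  · exact ⟨[(false, 0), (true, 1), (true, 2)], by simp [fourteen], rfl⟩
  · exact ⟨[(false, 0), (true, 1), (false, 2)], by simp [fourteen], rfl⟩
  · exact ⟨[(false, 0), (false, 1), (true, 2)], by simp [fourteen], rfl⟩
  · exact ⟨[(false, 0), (false, 1), (false, 2)], by simp [fourteen], rfl⟩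
  · exact ⟨[(true, 2), (true, 1), (true, 0)], by simp [fourteen], rfl⟩
  · exact ⟨[(false, 2), (true, 1), (true, 0)], by simp [fourteen], rfl⟩
  · exact ⟨[(true, 2), (true, 1), (false, 0)], by simp [fourteen], rfl⟩
  · exact ⟨[(true, 1), (true, 2), (true, 0)], by simp [fourteen], rfl⟩
  · exact ⟨[(true, 2), (true, 0), (true, 1)], by simp [fourteen], rfl⟩
  · exact ⟨[(false, 1), (true, 2), (true, 0), (true, 1), (true, 1)], by simp [fourteen], rfl⟩

theorem knot_fourteen {w : List (Letter 4)} (h : w ∈ fourteen) : IsKnotW w := by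
  simp only [fourteen, List.mem_cons, List.not_mem_nil, or_false] at h
  rcases h with rfl | rfl | rfl | rfl | rfl | rfl | rfl | rfl | rfl | rfl | rfl | rfl | rfl | rfl <;>
    (unfold IsKnotW; decide)

theorem fourteen_one {w : List (Letter 4)} (h : w ∈ fourteen) : (dia (braidClosure 4) w).fPoly = 1 :=
  (Pool.Agent.J5.H37.FD.tst_short (toN_fourteen h)).ff_eq

theorem fourteen_iff {h : ℤ[T;T⁻¹]} {x : List (Letter 4)} : Passes fourteen h x ↔
    ∀ w ∈ Pool.Agent.J5.H37.FD.tst, h ∣ ff (braidClosure 4) (toN x ++ w) - 1 := by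
  constructor
  · intro hp w hw
    obtain ⟨w', hw', rfl⟩ := fourteen_toN hw
    have := hp w' hw'
    rwa [dia_ff, toN_append] at this
  · intro hp w hw
    rw [dia_ff, toN_append]
    exact hp _ (toN_fourteen hw)

theorem knotTests_of {m k : ℕ} {W : List (List (Letter m))} (hl : W.length = k)
    (h1 : ∀ w ∈ W, (dia (braidClosure m) w).fPoly = 1) (h2 : ∀ w ∈ W, IsKnotW w) : KnotTests m k W := by
  refine ⟨hl, fun w hw => ⟨h1 w hw, fun x hx => ⟨?_, fun i j => ?_⟩⟩⟩
  · exact dia_closed' _ (closure_closed' m) _ (fun _ => rfl)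
  · have h3 : permW (x ++ w) = permW w := by
      rw [permW_append, show permW x = 1 from hx, one_mul]
    rw [h3]
    exact h2 w hw i j

theorem zero_dvd_sub {a b : ℤ[T;T⁻¹]} : (0 : ℤ[T;T⁻¹]) ∣ a - b ↔ a = b := by
  rw [zero_dvd_iff, sub_eq_zero]

/-- The equivalences for an integer modulus, all numbers of strands. -/
theorem all_int (n N : ℕ) (x : List (Letter (n + 1))) :
    (Passes (testWords n) (N : ℤ[T;T⁻¹]) x ↔ BracketChange (N : ℤ[T;T⁻¹]) 1 x) ∧
    (Passes (testWords n) (N : ℤ[T;T⁻¹]) x ↔ JonesChange (N : ℤ[T;T⁻¹]) x) := by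
  by_cases hN : N = 1
  · exact ⟨⟨fun _ O v => one_dvd_nat hN _, fun _ w _ => one_dvd_nat hN _⟩,
      ⟨fun _ O _ v => one_dvd_nat hN _, fun _ w _ => one_dvd_nat hN _⟩⟩
  have hx := toN_lt' x
  have key : Passes (testWords n) (N : ℤ[T;T⁻¹]) x → expo (toN x) = 0 ∧
      ∀ (O : Outer (n+1)) (v : List (Bool × ℕ)), (∀ y ∈ v, y.2 < n) →
        (N : ℤ[T;T⁻¹]) ∣ Pool.Agent.J5.H37.FD.brk O (toN x ++ v) - Pool.Agent.J5.H37.FD.brk O v := by
    intro hp
    refine int_tests hN hx fun t ht => ?_
    obtain ⟨w, hw, rfl⟩ := testWords_of_ts ht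
    have := hp w hw
    rwa [dia_ff, toN_append] at this
  refine ⟨⟨fun hp O v => ?_, fun hb w hw => ?_⟩, ⟨fun hp O hO v => ?_, fun hj w hw => ?_⟩⟩
  · rw [one_mul, dia_br, dia_br, toN_append]
    exact (key hp).2 O _ (toN_lt' v)
  · have hb' : ∀ (O : Outer (n+1)) (v : List (Letter (n+1))),
        (N : ℤ[T;T⁻¹]) ∣ (dia O (x ++ v)).bracket - (dia O v).bracket := by
      intro O v
      have := hb O v
      rwa [one_mul] at this
    have he : expo (toN x) = 0 := by
      refine int_brk hN hx fun t ht => ?_
      obtain ⟨w, _, rfl⟩ := testWords_of_ts ht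
      have := hb' (braidClosure (n+1)) w
      rwa [dia_br, dia_br, toN_append] at this
    exact mod_tests he hb' w (test_one hw)
  · obtain ⟨he, hbr⟩ := key hp
    rw [dia_ff, dia_ff, toN_append, ff_par hx (toN_lt' v) he O (fun i => hO i 0)]
    exact Dvd.dvd.mul_left (hbr O _ (toN_lt' v)) _
  · have := hj (braidClosure (n+1)) (fun _ _ => rfl) w
    rwa [test_one hw] at this

/-- **Finitely many knots decide whether a braid is invisible.**

* For every `n` there are `2^n n!` test words on `n + 1` strands whose closures are knots with Jones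
  polynomial `1` (and if `x` is pure, the closures of `x w` are knots, too).
* Let `N` be a natural number (for `N = 0` congruences are equalities).  A word `x` on `n + 1` strands
  can be inserted in `n + 1` strands of any diagrams without changing the bracket modulo `N` if and only
  if the closures of all `x w`, `w` a test word, have Jones polynomial `1` modulo `N`, and if and only if
  it can be inserted in `n + 1` parallel strands without changing the Jones polynomial modulo `N`.
* If `x` is pure and changes the bracket of some diagram, then there is a test word `w` such that the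
  knots which are the closures of `x^k w`, `k ∈ ℤ`, have Jones polynomial `F` for at most
  `C(n+1, ⌊(n+1)/2⌋)` integers `k`, for every `F` (for instance `F = 1`).
* For every `n` there is `κ ≠ 0` such that for all Laurent polynomials `h` and all `x` with exponent sum
  `0`: if the closures of all `x w` have Jones polynomial `1` modulo `h`, then `κ` times every change of
  the bracket is divisible by `h`; and if `h` divides every change of the bracket, then the closures of
  all `x w` have Jones polynomial `1` modulo `h`.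
* For four strands fourteen words suffice, and then `κ = (1 - t)² (1 - t³) (1 - t⁴) (1 - t⁵)`. -/
theorem result :
    (∀ n : ℕ,
      KnotTests (n + 1) (2 ^ n * n.factorial) (testWords n) ∧
      (∀ (N : ℕ) (x : List (Letter (n + 1))),
        (Passes (testWords n) (N : ℤ[T;T⁻¹]) x ↔ BracketChange (N : ℤ[T;T⁻¹]) 1 x) ∧
        (Passes (testWords n) (N : ℤ[T;T⁻¹]) x ↔ JonesChange (N : ℤ[T;T⁻¹]) x)) ∧
      (∀ x : List (Letter (n + 1)), IsPure x → ¬ BracketChange 0 1 x → ∃ w ∈ testWords n,
        ∀ (F : ℤ[T;T⁻¹]) (Z : Finset ℤ),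
          (∀ k ∈ Z, (dia (braidClosure (n + 1)) (powW x k ++ w)).fPoly = F) →
            Z.card ≤ (n + 1).choose ((n + 1) / 2)) ∧
      ∃ κ : ℤ[T;T⁻¹], κ ≠ 0 ∧ ∀ (h : ℤ[T;T⁻¹]) (x : List (Letter (n + 1))), expSum x = 0 →
        (Passes (testWords n) h x → BracketChange h κ x) ∧
        (BracketChange h 1 x → Passes (testWords n) h x)) ∧
    (KnotTests 4 14 fourteen ∧
      (∀ (N : ℕ) (x : List (Letter 4)),
        (Passes fourteen (N : ℤ[T;T⁻¹]) x ↔ BracketChange (N : ℤ[T;T⁻¹]) 1 x) ∧
        (Passes fourteen (N : ℤ[T;T⁻¹]) x ↔ JonesChange (N : ℤ[T;T⁻¹]) x)) ∧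
      (∀ (h : ℤ[T;T⁻¹]) (x : List (Letter 4)), expSum x = 0 →
        (Passes fourteen h x →
          BracketChange h ((1 - T (-4)) ^ 2 * (1 - T (-4) ^ 3) * (1 - T (-4) ^ 4) * (1 - T (-4) ^ 5)) x) ∧
        (BracketChange h 1 x → Passes fourteen h x))) := by
  refine ⟨fun n => ⟨knotTests_of (length_testWords n) (fun w hw => test_one hw) (fun w hw => test_knot hw),
    fun N x => all_int n N x, fun x hx hb => ?_, ?_⟩,
    knotTests_of rfl (fun w hw => fourteen_one hw) (fun w hw => knot_fourteen hw),
    fun N x => ?_, fun h x he => ⟨fun hp O v => ?_, fun hi w hw => ?_⟩⟩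
  · refine detect2 hx ?_
    unfold BracketChange at hb
    push Not at hb
    obtain ⟨O, v, hOv⟩ := hb
    rw [one_mul, zero_dvd_sub] at hOv
    exact ⟨O, v, hOv⟩
  · obtain ⟨κ, hκ, hf⟩ := tests_mod n
    refine ⟨κ, hκ, fun h x he => ⟨fun hp O v => hf h x (by rw [← expSum_eq]; exact he) hp O v,
      fun hb w hw => ?_⟩⟩
    refine mod_tests (by rw [← expSum_eq]; exact he) (fun O v => ?_) w (test_one hw)
    have := hb O v
    rwa [one_mul] at this
  · by_cases hN : N = 1
    · exact ⟨⟨fun _ O v => one_dvd_nat hN _, fun _ w _ => one_dvd_nat hN _⟩,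
        ⟨fun _ O _ v => one_dvd_nat hN _, fun _ w _ => one_dvd_nat hN _⟩⟩
    · refine ⟨⟨fun hp O v => ?_, fun hb w hw => ?_⟩, ⟨fun hp O hO v => ?_, fun hj w hw => ?_⟩⟩
      · rw [one_mul, dia_br, dia_br, toN_append]
        exact Pool.Agent.J5.H37.FD.tests_brk (toN_lt x) (fourteen_iff.1 hp) O (toN_lt v)
      · have hb' : ∀ (O : Outer 4) (v : List (Letter 4)),
            (N : ℤ[T;T⁻¹]) ∣ (dia O (x ++ v)).bracket - (dia O v).bracket := by
          intro O v
          have := hb O v
          rwa [one_mul] at this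
        have he := four_brk hb' hN (fun t ht => by
          obtain ⟨w', _, hw'⟩ := fourteen_toN ht
          exact ⟨w', hw'⟩)
        exact mod_tests (n := 3) he hb' w (fourteen_one hw)
      · exact four_par hN (fourteen_iff.1 hp) O (fun i => hO i 0) v
      · have := hj (braidClosure 4) (fun _ _ => rfl) w
        rwa [fourteen_one hw] at this
  · rw [dia_br, dia_br, toN_append]
    exact Pool.Agent.J5.H37.FD.all_mod' (toN_lt x) (by rw [← expSum_eq]; exact he) (fourteen_iff.1 hp) O
      (toN_lt v)
  · refine mod_tests (n := 3) (by rw [← expSum_eq]; exact he) (fun O v => ?_) w (fourteen_one hw)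
    have := hi O v
    rwa [one_mul] at this

end Pool.Agent.Results.MP_7bc610_gt.UnknotTests
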